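import Pool.Agent.V11210.NF.NFW

/-!
# The Tauberian Tate averages of almost all elliptic surfaces (`n = 2`: elliptic K3 surfaces) whose coefficients arise from arbitrary
# integers by changing a few digits, over all number fields and for all quadratic twists at once

`A(t) = ∑ a_i t^i` and `B(t) = ∑ b_i t^i` are polynomials with integral coefficients of degree at most `4 n` and `6 n`.  The equation
`d y² = x³ + A(t) x + B(t)` describes an elliptic surface `V_d` over the projective line with coordinate `t` (its Weierstrass model);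
for `n = 1` it is a rational surface and for `n = 2` a K3 surface, if the discriminant is general.  `H¹(V_d) = H³(V_d) = 0`, so the
trace `b_p` of the Frobenius on `H²(V_d)` at a prime `p` of good reduction is `#V_d(𝔽_p) - 1 - p²`.  The zero section and a fibre
generate a subgroup of rank `2` of `NS(V_d)`.

Let `k = ℚ(θ)` be a number field, `f(θ) = 0` for a monic polynomial `f` of degree `D` with integral coefficients, and `d = g(θ) ∈ k^*`,
`g` a polynomial with integral coefficients of degree less than `D`.  The roots `θ` of `f` modulo `p` belong to the prime ideals `𝔭` of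
degree one of `ℤ[θ]` over `p`, and the reduction of the surface `V_d` over `k` modulo `𝔭` is the surface `V_(g(θ))` over `𝔽_p`.
-/

set_option autoImplicit false

namespace Pool.Agent.Results.MP_4589ac_nt.EllipticSurfacesAllNumberFields

open Finset MvPolynomial

/-- The indices of the coefficients: `inl i` is the index of `a_i`, `i ≤ 4 n`, and `inr i` the index of `b_i`, `i ≤ 6 n`. -/
abbrev Index (n : ℕ) : Type := Fin (4 * n + 1) ⊕ Fin (6 * n + 1)

variable {n D : ℕ}

/-- The number of the points modulo `p` of the elliptic surface `d y² = x³ + A(t) x + B(t)` over the projective line: the number of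
the solutions `(x, t, y)`, `x = P.1 0`, `t = P.1 1`, `y = P.2`, the number of the solutions `(x, y)` of the equation
`d y² = x³ + a_(4n) x + b_(6n)` of the fibre at `t = ∞`, and the `p + 1` points of the zero section. -/
noncomputable def points (c : Index n → ℤ) (d : ℤ) (p : ℕ) : ℕ :=
  Nat.card {P : (Fin 2 → ZMod p) × ZMod p // (d : ZMod p) * P.2 ^ 2 =
    P.1 0 ^ 3 + (∑ i : Fin (4 * n + 1), (c (Sum.inl i) : ZMod p) * P.1 1 ^ (i : ℕ)) * P.1 0 +
      ∑ i : Fin (6 * n + 1), (c (Sum.inr i) : ZMod p) * P.1 1 ^ (i : ℕ)} +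
  Nat.card {P : ZMod p × ZMod p // (d : ZMod p) * P.2 ^ 2 =
    P.1 ^ 3 + (c (Sum.inl (Fin.last _)) : ZMod p) * P.1 + (c (Sum.inr (Fin.last _)) : ZMod p)} + p + 1

/-- The trace of the Frobenius on `H²` of the surface at the primes of good reduction, `#V_d(𝔽_p) - 1 - p²`. -/
noncomputable def trace (c : Index n → ℤ) (d : ℤ) (p : ℕ) : ℝ := points c d p - 1 - (p : ℝ) ^ 2

/-- The value `∑ v_i θ^i` of a polynomial of degree less than `D`. -/
def value (v : Fin D → ℤ) (θ : ℤ) : ℤ := ∑ i, v i * θ ^ (i : ℕ)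

/-- The roots `θ` modulo `p` (`0 ≤ θ < p`) of `f = x^D + ∑ u_i x^i` for which `g(θ) = ∑ v_i θ^i` is not divisible by `p`. -/
def roots (u v : Fin D → ℤ) (p : ℕ) : Finset ℕ :=
  (range p).filter (fun θ : ℕ => (p : ℤ) ∣ (θ : ℤ) ^ D + value u θ ∧ ¬ (p : ℤ) ∣ value v θ)

open Classical in
/-- `∑ (b_𝔭 / q_𝔭 - 2) log q_𝔭` over the primes `𝔭` of degree one of `ℤ[θ]`, `f(θ) = 0`, with `q_𝔭 = p < T`, `p` odd, `p ∉ R` and
`g(θ)` not divisible by `𝔭`, where `b_𝔭` is the trace on `H²` of the surface `g(θ) y² = x³ + A(t) x + B(t)` modulo `𝔭`. -/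
noncomputable def tateSum (c : Index n → ℤ) (u v : Fin D → ℤ) (R : Set ℕ) (T : ℕ) : ℝ :=
  ∑ p ∈ (range T).filter (fun p : ℕ => p.Prime ∧ 3 ≤ p ∧ p ∉ R),
    ∑ θ ∈ roots u v p, (trace c (value v θ) p / p - 2) * Real.log p

/-- The digit number `i` (counted from the right, beginning with `0`) of `n` in base `b`. -/
def digit (b i n : ℕ) : ℕ := n / b ^ i % b

/-- The number which arises from the number `N` with at most `K` digits in base `b`, if for every `i ∈ S`
the digit number `i` is replaced by `f i`. -/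
def change (b K N : ℕ) (f : ℕ → ℕ) (S : Finset ℕ) : ℕ :=
  ∑ i ∈ range K, (if i ∈ S then f i else digit b i N) * b ^ i

open Classical in
/-- The number of the choices of `k l` of `K l` positions for all indices `l` for which the vector of the numbers obtained by
changing the digits of the `N l` at the chosen positions (according to `f l`) does not have the property `E`. -/
noncomputable def exceptions {ι : Type} [Fintype ι] [DecidableEq ι] (b : ℕ) (K k N : ι → ℕ) (f : ι → ℕ → ℕ)
    (E : (ι → ℕ) → Prop) : ℕ :=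
  ((Fintype.piFinset (fun l => powersetCard (k l) (range (K l)))).filter
    (fun S => ¬ E (fun l => change b (K l) (N l) (f l) (S l)))).card

/-- **The Tauberian averages over all number fields of degree `D` and for all quadratic twists for almost all elliptic surfaces in
thin families.** `σ` is an arbitrary integer vector, to which the vector of the changed numbers is added; `P` is a nonzero polynomial
in the coefficients (for instance the discriminant of the discriminant `4 A³ + 27 B²`) and `R` any set of divisors of its value at the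
coefficients. -/
theorem result (hn : 1 ≤ n) (hD : 1 ≤ D) (P : MvPolynomial (Index n) ℤ) (hP : P ≠ 0)
    (b : ℕ) (hb : 2 ≤ b) (δ : ℝ) (hδ : 0 < δ) (A B : ℕ) :
    ∃ c : ℝ, 0 < c ∧ ∃ y₀ : ℕ, ∀ (K k : Index n → ℕ) (y : ℕ),
      (∀ l, 2 * k l ≤ K l) → y₀ ≤ y → ∀ N : Index n → ℕ, (∀ l, N l < b ^ K l) →
      ∀ f : Index n → ℕ → ℕ, (∀ l j, f l j < b ∧ f l j ≠ digit b j (N l)) →
      ∀ σ : Index n → ℤ,
      (exceptions b K k N f (fun m => ∀ T : ℕ, y ≤ T → (∀ l, (T : ℝ) ≤ Real.exp (c * k l)) →
        ∀ u v : Fin D → ℤ, (∀ i, |u i| ≤ (T : ℤ) ^ B) → (∀ i, |v i| ≤ (T : ℤ) ^ B) →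
        ∀ R : Set ℕ, (∀ p ∈ R, (p : ℤ) ∣ eval (fun l => σ l + m l) P) →
        |tateSum (fun l => σ l + m l) u v R T| ≤ D * (T : ℝ) ^ (1 / 2 + δ)) : ℝ) ≤
      1 / (y : ℝ) ^ A * ∏ l, ((K l).choose (k l) : ℝ) := by
  classical
  obtain ⟨c, hc, y₀, h⟩ := Pool.Agent.V11210.NF.K3.k3NF hn P hP b hb δ hδ D hD A B
  refine ⟨c, hc, y₀, fun K k y hK hy N hN f hf σ => ?_⟩
  have key := h K k y hK hy N hN f hf σ (fun m => ∀ T : ℕ, y ≤ T → (∀ l, (T : ℝ) ≤ Real.exp (c * k l)) →
        ∀ u v : Fin D → ℤ, (∀ i, |u i| ≤ (T : ℤ) ^ B) → (∀ i, |v i| ≤ (T : ℤ) ^ B) →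
        ∀ R : Set ℕ, (∀ p ∈ R, (p : ℤ) ∣ eval (fun l => σ l + m l) P) →
        |tateSum (fun l => σ l + m l) u v R T| ≤ D * (T : ℝ) ^ (1 / 2 + δ)) (by
    intro m hm T hyT hT u v hu hv R hR
    have h1 := hm T hyT hT u v hu hv R hR (Classical.decPred _)
    refine le_trans (le_of_eq ?_) h1
    unfold tateSum
    congr 1
    refine sum_congr ?_ fun p _ => ?_
    · ext p
      simp only [mem_filter]
    · rfl)
  exact key

end Pool.Agent.Results.MP_4589ac_nt.EllipticSurfacesAllNumberFields
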