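import Pool.Agent.Results.MP_4589ac_nt.RandomNumberFields
import Pool.Agent.V1176.SQ.Pad

/-!
# The Tauberian Tate conjecture over ALL number fields in small residue classes

The notation is that of the file `RandomNumberFields` of this problem: `F` is a number field of degree `d`,
`f` a monic polynomial of degree `n` over `𝓞_F`, `L = F(θ)` an extension of degree `n` with `f(θ) = - t`,
`V` the product over `L` of the `r` elliptic curves `y² = x³ + a_i x + b_i + θ`, `a_i ≠ 0`, and `W` any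
variety over `F`.  That file shows that for all integers `|t| ≤ X` with at most `X^{1-c}` exceptions the sum
of `b_w(V × W) log q_w / q_w` over the good primes `w` of `L` with `q_w ≤ T` is as expected up to
`T^{1/2+δ}`, for all `T` between a power of `log X` and a power of `X`.

Here: let `p` be a prime number, `σ > 0`, and let `W_0, W_1, …` be varieties over `F`.  For every `p`-adic
integer `α` outside a set of Hausdorff dimension at most `(1 - c) / σ` the following holds for ALL `f`, ALL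
`a_i ≠ 0` and `b_i` in `𝓞_F` and all `W_k`: for all large `Y`, for ALL integers `1 ≤ t ≤ Y` with
`|t - α|_p ≤ Y ^ (-σ)` (those in the residue class of `α` modulo the power of `p` next to `Y ^ σ`), ALL
extensions `L = F(θ)` as above and all `T` between `(log t)^{1/c}` and `t^c` the sum for `V × W_k` over `L` is
as expected, up to `T^{1/2+δ}`.
-/

set_option autoImplicit false

namespace Pool.Agent.Results.MP_4589ac_nt.ResidueClasses

open NumberField IsDedekindDomain Filter
open Pool.Agent.Results.MP_4589ac_nt.RandomNumberFields (Generates tauberSum baseChange expectedSum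
  picardNumber HeightLE)

/-- The assertion for the integer `t`, the polynomial `f`, the curves given by `a` and `b`, and the variety
given by `γ`: for all extensions `L = F(θ)` of degree `deg f` with `f(θ) = - t` and all `T` between `T₁`
and `T₂` the sum for `V × W` over `L` differs by at most `T^{1/2+δ}` from the expected one. -/
def Holds {F : Type} [Field F] [NumberField F] {r N : ℕ} (δ : ℝ) (f : Polynomial (𝓞 F))
    (a b : Fin r → 𝓞 F) (γ : Fin 3 → Ideal (𝓞 F) → Fin N → ℂ) (t : ℤ) (T₁ T₂ : ℝ) : Prop :=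
  ∀ (L : Type) [Field L] [NumberField L] [Algebra F L] (θ : 𝓞 L), Generates f t θ →
    ∀ T : ℕ, T₁ ≤ T → (T : ℝ) ≤ T₂ →
      ‖tauberSum (fun i => algebraMap (𝓞 F) (𝓞 L) (a i))
          (fun i => algebraMap (𝓞 F) (𝓞 L) (b i) + θ) (baseChange L γ) T -
        expectedSum (picardNumber a b) γ T‖ ≤ (T : ℝ) ^ (1 / 2 + δ)

/-- the polynomial with the coefficients `g` -/
noncomputable def poly {F : Type} [Field F] [NumberField F] {n : ℕ} (g : Fin (n + 1) → 𝓞 F) :
    Polynomial (𝓞 F) := ∑ i : Fin (n + 1), Polynomial.C (g i) * Polynomial.X ^ (i : ℕ)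

lemma poly_coeff {F : Type} [Field F] [NumberField F] {n : ℕ} (f : Polynomial (𝓞 F))
    (hf : f.natDegree = n) : poly (fun i : Fin (n + 1) => f.coeff i) = f := by
  unfold poly
  conv_rhs => rw [f.as_sum_range_C_mul_X_pow, hf]
  rw [Finset.sum_range]

lemma exists_height {F : Type} [Field F] [NumberField F] (x : 𝓞 F) :
    ∃ R : ℝ, HeightLE R x := by
  obtain ⟨R, hR⟩ := (Set.finite_range fun σ : F →+* ℂ => ‖σ (x : F)‖).bddAbove
  exact ⟨R, fun σ => hR ⟨σ, rfl⟩⟩

/-- **The Tauberian Tate conjecture in residue classes without exceptions.** -/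
theorem result (d n r N : ℕ) (hn : 0 < n) (δ : ℝ) (hδ : 0 < δ) :
    ∃ c : ℝ, 0 < c ∧ ∀ (p : ℕ) [Fact p.Prime] (σ : ℝ), 0 < σ →
      ∀ (F : Type) [Field F] [NumberField F], Module.finrank ℚ F = d →
      ∀ γ : ℕ → Fin 3 → Ideal (𝓞 F) → Fin N → ℂ, (∀ k i w j, ‖γ k i w j‖ ≤ 1) →
      ∃ E : Set ℤ_[p], dimH E ≤ ENNReal.ofReal ((1 - c) / σ) ∧
      ∀ α : ℤ_[p], α ∉ E →
      ∀ f : Polynomial (𝓞 F), f.Monic → f.natDegree = n →
      ∀ a b : Fin r → 𝓞 F, (∀ i, a i ≠ 0) → ∀ k : ℕ,
        ∃ Y₀ : ℝ, ∀ Y : ℝ, Y₀ ≤ Y → ∀ t : ℕ, 1 ≤ t → (t : ℝ) ≤ Y → ‖(t : ℤ_[p]) - α‖ ≤ Y ^ (-σ) →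
          Holds δ f a b (γ k) t ((Real.log t) ^ (1 / c)) ((t : ℝ) ^ c) := by
  obtain ⟨c₀, hc₀, X₁, hfew⟩ :=
    Pool.Agent.Results.MP_4589ac_nt.RandomNumberFields.result d n r N hn 1 δ hδ
  set c : ℝ := min (c₀ / 2) (1 / 2) with hc
  have hc0 : 0 < c := lt_min (by linarith) (by norm_num)
  have hcc : c ≤ c₀ / 2 := min_le_left _ _
  have hc2 : c ≤ 1 / 2 := min_le_right _ _
  refine ⟨c, hc0, fun p _ σ hσ F _ _ hF γ hγ => ?_⟩
  have : Countable (𝓞 F) := (RingOfIntegers.basis F).equivFun.injective.countable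
  -- the exceptional pairs
  let Bad : (Fin (n + 1) → 𝓞 F) × (Fin r → 𝓞 F) × (Fin r → 𝓞 F) × ℕ → ℝ → ℝ → ℕ → Prop :=
    fun x R₁ R₂ t => (poly x.1).Monic ∧ (poly x.1).natDegree = n ∧ (∀ i, x.2.1 i ≠ 0) ∧
      ¬ Holds δ (poly x.1) x.2.1 x.2.2.1 (γ x.2.2.2) t R₁ R₂
  have hall : ∀ x, ∃ E : Set ℤ_[p], dimH E ≤ ENNReal.ofReal ((1 - c) / σ) ∧
      ∀ α ∉ E, ∃ Y₀ : ℝ, ∀ Y ≥ Y₀, ∀ t : ℕ, (t : ℝ) ≤ Y → ‖(t : ℤ_[p]) - α‖ ≤ Y ^ (-σ) →
        t ∉ {t : ℕ | 1 ≤ t ∧ Bad x ((Real.log t) ^ (1 / c)) ((t : ℝ) ^ c) t} := by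
    intro x
    have hcount : ∃ X₀ : ℕ, ∀ X : ℕ, X₀ ≤ X → ({t : ℕ | 1 ≤ t ∧ t ≤ X ∧
        Bad x ((Real.log X) ^ (1 / c₀)) ((X : ℝ) ^ c₀) t}.ncard : ℝ) ≤ (X : ℝ) ^ (1 - c) := by
      obtain ⟨g, a, b, k⟩ := x
      by_cases hcond : (poly g).Monic ∧ (poly g).natDegree = n ∧ (∀ i, a i ≠ 0)
      · obtain ⟨h1, h2, h3⟩ := hcond
        choose Ra hRa using fun i => exists_height (a i)
        choose Rb hRb using fun i => exists_height (b i)
        choose Rg hRg using fun i : ℕ => exists_height ((poly g).coeff i)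
        -- a common bound
        obtain ⟨Ma, hMa⟩ := (Set.finite_range Ra).bddAbove
        obtain ⟨Mb, hMb⟩ := (Set.finite_range Rb).bddAbove
        obtain ⟨Mg, hMg⟩ := (Set.finite_range fun i : Fin (n + 1) => Rg i).bddAbove
        obtain ⟨X₂, hX₂⟩ := exists_nat_ge (max (max Ma Mb) Mg)
        refine ⟨max (max X₁ X₂) 1, fun X hX => ?_⟩
        have hXX₁ : X₁ ≤ X := ((le_max_left _ _).trans (le_max_left _ _)).trans hX
        have hXX₂ : X₂ ≤ X := ((le_max_right _ _).trans (le_max_left _ _)).trans hX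
        have hX1 : 1 ≤ X := (le_max_right _ _).trans hX
        have hX1' : (1 : ℝ) ≤ X := by exact_mod_cast hX1
        have hexp : Real.exp ((Real.log X) ^ (1 : ℝ)) = X := by
          rw [Real.rpow_one, Real.exp_log (by linarith)]
        have hXM : max (max Ma Mb) Mg ≤ X := hX₂.trans (by exact_mod_cast hXX₂)
        have hMaX : Ma ≤ X := ((le_max_left _ _).trans (le_max_left _ _)).trans hXM
        have hMbX : Mb ≤ X := ((le_max_right _ _).trans (le_max_left _ _)).trans hXM
        have hMgX : Mg ≤ X := (le_max_right _ _).trans hXM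
        have key := hfew X hXX₁ F hF (poly g) h1 h2 (fun i σ => by
            rw [hexp]
            rcases Nat.lt_or_ge n i with hi | hi
            · rw [Polynomial.coeff_eq_zero_of_natDegree_lt (by rw [h2]; exact hi)]
              simp
            · exact ((hRg i σ).trans (hMg ⟨⟨i, by omega⟩, rfl⟩)).trans hMgX)
          1 (by
            rw [Nat.cast_one]
            exact Real.one_le_rpow hX1' hc₀.le)
          (fun _ => a) (fun _ => b) (fun _ => γ k)
          (fun _ i => ⟨h3 i, fun σ => by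
            rw [hexp]
            exact ((hRa i σ).trans (hMa ⟨i, rfl⟩)).trans hMaX, fun σ => by
            rw [hexp]
            exact ((hRb i σ).trans (hMb ⟨i, rfl⟩)).trans hMbX⟩)
          (fun _ i w j => hγ k i w j)
        have hpow : (X : ℝ) ^ (1 - c₀) ≤ (X : ℝ) ^ (1 - c) :=
          Real.rpow_le_rpow_of_exponent_le hX1' (by linarith)
        refine le_trans ?_ (key.trans hpow)
        have hfin : {t : ℤ | |t| ≤ X ∧ ¬ ∀ (L : Type) [Field L] [NumberField L] [Algebra F L] (θ : 𝓞 L),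
            Generates (poly g) t θ → ∀ (k' : Fin 1) (T : ℕ), (Real.log X) ^ (1 / c₀) ≤ T →
              (T : ℝ) ≤ (X : ℝ) ^ c₀ →
              ‖tauberSum (fun i => algebraMap (𝓞 F) (𝓞 L) (a i))
                  (fun i => algebraMap (𝓞 F) (𝓞 L) (b i) + θ) (baseChange L (γ k)) T -
                expectedSum (picardNumber a b) (γ k) T‖ ≤ (T : ℝ) ^ (1 / 2 + δ)}.Finite := by
          refine (Set.finite_Icc (-(X : ℤ)) X).subset ?_
          rintro t ⟨ht, -⟩
          exact abs_le.1 ht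
        have h4 := Set.ncard_le_ncard_of_injOn (fun t : ℕ => (t : ℤ))
          (s := {t : ℕ | 1 ≤ t ∧ t ≤ X ∧ Bad (g, a, b, k) ((Real.log X) ^ (1 / c₀)) ((X : ℝ) ^ c₀) t}) (fun t ht => by
            obtain ⟨h5, h6, h7⟩ := ht
            refine ⟨?_, fun h8 => h7.2.2.2 ?_⟩
            · rw [abs_of_nonneg (by positivity)]
              exact_mod_cast h6
            · intro L _ _ _ θ hθ T hT1 hT2
              exact h8 L θ hθ 0 T hT1 hT2) (Nat.cast_injective.injOn) hfin
        exact_mod_cast h4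
      · refine ⟨0, fun X _ => ?_⟩
        have : {t : ℕ | 1 ≤ t ∧ t ≤ X ∧ Bad (g, a, b, k) ((Real.log X) ^ (1 / c₀)) ((X : ℝ) ^ c₀) t} = ∅ := by
          rw [Set.eq_empty_iff_forall_notMem]
          rintro t ⟨-, -, h1, h2, h3, -⟩
          exact hcond ⟨h1, h2, h3⟩
        rw [this, Set.ncard_empty, Nat.cast_zero]
        positivity
    obtain ⟨X₀, hX₀⟩ := hcount
    refine Pool.Agent.V1176.SQ.padic_of_bad p (by linarith) hσ _
      (fun X t => Bad x ((Real.log X) ^ (1 / c₀)) ((X : ℝ) ^ c₀) t) (max X₀ 16)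
      (fun X hX => hX₀ X ((le_max_left _ _).trans hX)) ?_
    rintro X hX t ⟨-, g1, g2, g3, g4⟩ ht hXt htX
    refine ⟨g1, g2, g3, fun hH => g4 ?_⟩
    have hX16 : 16 ≤ X := (le_max_right _ _).trans hX
    have ht8 : (8 : ℝ) ≤ t := by
      have : 8 ≤ t := by omega
      exact_mod_cast this
    have htX' : (t : ℝ) ≤ X := by exact_mod_cast htX
    have hX1 : (1 : ℝ) ≤ X := by linarith
    have hXt' : (X : ℝ) ≤ (t : ℝ) ^ (2 : ℝ) := by
      have h1 : (X : ℝ) < 2 * t := by exact_mod_cast hXt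
      rw [Real.rpow_two]
      nlinarith
    have hlogX : Real.log X ≤ 2 * Real.log t := by
      have := Real.log_le_log (by linarith) hXt'
      rwa [Real.log_rpow (by linarith)] at this
    have hlt : 2 ≤ Real.log t := by
      rw [Real.le_log_iff_exp_le (by linarith)]
      have h1 : Real.exp 2 = Real.exp 1 * Real.exp 1 := by
        rw [← Real.exp_add]
        norm_num
      have h2 := Real.exp_one_lt_d9
      have h3 := Real.exp_pos 1
      rw [h1]
      nlinarith
    intro L _ _ _ θ hθ T hT1 hT2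
    refine hH L θ hθ T (le_trans ?_ hT1) (hT2.trans ?_)
    · calc (Real.log X) ^ (1 / c₀) ≤ (2 * Real.log t) ^ (1 / c₀) :=
            Real.rpow_le_rpow (Real.log_nonneg hX1) hlogX (by positivity)
        _ ≤ ((Real.log t) ^ (2 : ℝ)) ^ (1 / c₀) := by
            refine Real.rpow_le_rpow (by linarith) ?_ (by positivity)
            rw [Real.rpow_two]
            nlinarith
        _ = (Real.log t) ^ (2 / c₀) := by
            rw [← Real.rpow_mul (by linarith)]
            congr 1
            ring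
        _ ≤ (Real.log t) ^ (1 / c) := by
            refine Real.rpow_le_rpow_of_exponent_le (by linarith) ?_
            rw [div_le_div_iff₀ hc₀ hc0]
            linarith
    · calc (t : ℝ) ^ c ≤ (X : ℝ) ^ c := Real.rpow_le_rpow (by linarith) htX' hc0.le
        _ ≤ (X : ℝ) ^ c₀ := Real.rpow_le_rpow_of_exponent_le hX1 (by linarith)
  choose E hE1 hE2 using hall
  refine ⟨⋃ x, E x, ?_, fun α hαE f hf hfn a b ha k => ?_⟩
  · rw [dimH_iUnion]
    exact iSup_le hE1
  · obtain ⟨Y₀, hY₀⟩ := hE2 (fun i : Fin (n + 1) => f.coeff i, a, b, k) α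
      (fun h => hαE (Set.mem_iUnion.2 ⟨_, h⟩))
    refine ⟨Y₀, fun Y hY t ht htY hw => ?_⟩
    have hpf : poly (fun i : Fin (n + 1) => f.coeff i) = f := poly_coeff f hfn
    by_contra hcon
    refine hY₀ Y hY t htY hw ⟨ht, ?_, ?_, ha, ?_⟩
    · simp only
      rw [hpf]
      exact hf
    · simp only
      rw [hpf]
      exact hfn
    · simp only
      rw [hpf]
      exact hcon

end Pool.Agent.Results.MP_4589ac_nt.ResidueClasses
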