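import Pool.Agent.Results.MP_4589ac_nt.RandomNumberFields
import Pool.Agent.V11326.WS
import Pool.Agent.V11326.WE

/-!
# The Tauberian Tate conjecture over ALL number fields in windows

The notation is that of the file `RandomNumberFields` of this problem: `F` is a number field of degree `d`,
`f` a monic polynomial of degree `n` over `𝓞_F`, `L = F(θ)` an extension of degree `n` with `f(θ) = - t`,
`V` the product over `L` of the `r` elliptic curves `y² = x³ + a_i x + b_i + θ`, `a_i ≠ 0`, and `W` any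
variety over `F`.  That file shows that for all integers `|t| ≤ X` with at most `X^{1-c}` exceptions the sum
of `b_w(V × W) log q_w / q_w` over the good primes `w` of `L` with `q_w ≤ T` is as expected up to
`T^{1/2+δ}`, for all `T` between a power of `log X` and a power of `X`.

Here: let `v_ν ≥ 1` be a sequence of exponent of convergence at most `τ` (`1 / a` for `v_ν = ν ^ a`, and `0`
for `v_ν = b ^ ν`) and `ϑ < 1`, and let `W_0, W_1, …` be varieties over `F`.  There is a set of Hausdorff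
dimension at most `(1 - c + τ) / (1 - ϑ)` such that for every `α > 0` outside it the following holds for ALL
`f`, ALL `a_i ≠ 0` and `b_i` in `𝓞_F` and all `W_k`: for all large `ν`, for ALL integers `t` with
`|t - α v_ν| ≤ v_ν ^ ϑ`, ALL extensions `L = F(θ)` as above and all `T` between `(log t)^{1/c}` and `t^c`
the sum for `V × W_k` over `L` is as expected, up to `T^{1/2+δ}`: no exceptional `t` is left.
-/

set_option autoImplicit false

namespace Pool.Agent.Results.MP_4589ac_nt.WindowsOfNumberFields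

open NumberField IsDedekindDomain Filter
open Pool.Agent.Results.MP_4589ac_nt.RandomNumberFields (Generates tauberSum baseChange expectedSum
  picardNumber HeightLE)

/-- the exponent of convergence of the sequence `v` is at most `τ` -/
def ExpLe (v : ℕ → ℝ) (τ : ℝ) : Prop := ∀ t : ℝ, τ < t → Summable (fun n : ℕ => (v n) ^ (-t))

/-- The assertion for the integer `t`, the polynomial `f`, the curves given by `a` and `b`, and the variety
given by `γ`: for all extensions `L = F(θ)` of degree `deg f` with `f(θ) = - t` and all `T` between `T₁`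
and `T₂` the sum for `V × W` over `L` differs by at most `T^{1/2+δ}` from the expected one. -/
def Holds {F : Type} [Field F] [NumberField F] {r N : ℕ} (δ : ℝ) (f : Polynomial (𝓞 F))
    (a b : Fin r → 𝓞 F) (γ : Fin 3 → Ideal (𝓞 F) → Fin N → ℂ) (t : ℤ) (T₁ T₂ : ℝ) : Prop :=
  ∀ (L : Type) [Field L] [NumberField L] [Algebra F L] (θ : 𝓞 L), Generates f t θ →
    ∀ T : ℕ, T₁ ≤ T → (T : ℝ) ≤ T₂ →
      ‖tauberSum (fun i => algebraMap (𝓞 F) (𝓞 L) (a i))
          (fun i => algebraMap (𝓞 F) (𝓞 L) (b i) + θ) (baseChange L γ) T -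
        expectedSum (picardNumber a b) γ T‖ ≤ (T : ℝ) ^ (1 / 2 + δ)

/-- the polynomial with the coefficients `g` -/
noncomputable def poly {F : Type} [Field F] [NumberField F] {n : ℕ} (g : Fin (n + 1) → 𝓞 F) :
    Polynomial (𝓞 F) := ∑ i : Fin (n + 1), Polynomial.C (g i) * Polynomial.X ^ (i : ℕ)

lemma poly_coeff {F : Type} [Field F] [NumberField F] {n : ℕ} (f : Polynomial (𝓞 F))
    (hf : f.natDegree = n) : poly (fun i : Fin (n + 1) => f.coeff i) = f := by
  unfold poly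
  conv_rhs => rw [f.as_sum_range_C_mul_X_pow, hf]
  rw [Finset.sum_range]

lemma exists_height {F : Type} [Field F] [NumberField F] (x : 𝓞 F) :
    ∃ R : ℝ, HeightLE R x := by
  obtain ⟨R, hR⟩ := (Set.finite_range fun σ : F →+* ℂ => ‖σ (x : F)‖).bddAbove
  exact ⟨R, fun σ => hR ⟨σ, rfl⟩⟩

/-- **The Tauberian Tate conjecture in windows without exceptions.** -/
theorem result (d n r N : ℕ) (hn : 0 < n) (δ : ℝ) (hδ : 0 < δ) :
    (∃ c : ℝ, 0 < c ∧ ∀ (v : ℕ → ℝ) (τ ϑ : ℝ), (∀ ν, 1 ≤ v ν) → 0 ≤ τ → ExpLe v τ → ϑ < 1 →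
      ∀ (F : Type) [Field F] [NumberField F], Module.finrank ℚ F = d →
      ∀ γ : ℕ → Fin 3 → Ideal (𝓞 F) → Fin N → ℂ, (∀ k i w j, ‖γ k i w j‖ ≤ 1) →
      ∃ E : Set ℝ, dimH E ≤ ENNReal.ofReal ((1 - c + τ) / (1 - ϑ)) ∧
      ∀ α : ℝ, 0 < α → α ∉ E →
      ∀ f : Polynomial (𝓞 F), f.Monic → f.natDegree = n →
      ∀ a b : Fin r → 𝓞 F, (∀ i, a i ≠ 0) → ∀ k : ℕ,
        ∃ ν₀ : ℕ, ∀ ν : ℕ, ν₀ ≤ ν → ∀ t : ℕ, 1 ≤ t → |(t : ℝ) - α * v ν| ≤ (v ν) ^ ϑ →
          Holds δ f a b (γ k) t ((Real.log t) ^ (1 / c)) ((t : ℝ) ^ c)) ∧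
    (∀ a : ℝ, 0 < a → ExpLe (fun n : ℕ => ((n : ℝ) + 1) ^ a) (1 / a)) ∧
    (∀ b : ℝ, 1 < b → ExpLe (fun n : ℕ => b ^ n) 0) := by
  refine ⟨?_, fun κ hκ => Pool.Agent.Y854.GM.expLe_pow κ hκ,
    fun b hb => Pool.Agent.Y854.GM.expLe_geom b hb⟩
  obtain ⟨c₀, hc₀, X₁, hfew⟩ :=
    Pool.Agent.Results.MP_4589ac_nt.RandomNumberFields.result d n r N hn 1 δ hδ
  set c : ℝ := min (c₀ / 2) (1 / 2) with hc
  have hc0 : 0 < c := lt_min (by linarith) (by norm_num)
  have hcc : c ≤ c₀ / 2 := min_le_left _ _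
  have hc2 : c ≤ 1 / 2 := min_le_right _ _
  refine ⟨c, hc0, fun v τ ϑ hv hτ hvτ hϑ F _ _ hF γ hγ => ?_⟩
  have : Countable (𝓞 F) := (RingOfIntegers.basis F).equivFun.injective.countable
  -- the exceptional pairs
  let Bad : (Fin (n + 1) → 𝓞 F) × (Fin r → 𝓞 F) × (Fin r → 𝓞 F) × ℕ → ℕ → ℕ → Prop :=
    fun x X t => (poly x.1).Monic ∧ (poly x.1).natDegree = n ∧ (∀ i, x.2.1 i ≠ 0) ∧
      ¬ Holds δ (poly x.1) x.2.1 x.2.2.1 (γ x.2.2.2) t ((Real.log X) ^ (1 / c₀)) ((X : ℝ) ^ c₀)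
  have hall : ∀ x, ∃ E : Set ℝ, dimH E ≤ ENNReal.ofReal ((1 - c + τ) / (1 - ϑ)) ∧
      ∀ α : ℝ, 0 < α → α ∉ E →
      ∃ A : ℕ, α ≤ A ∧ ∃ n0 : ℕ, ∀ ν : ℕ, n0 ≤ ν → ∀ t : ℕ, 1 ≤ t → |(t : ℝ) - α * v ν| ≤ (v ν) ^ ϑ →
        t ≤ ⌈((A : ℝ) + 1) * v ν⌉₊ ∧ ¬ Bad x ⌈((A : ℝ) + 1) * v ν⌉₊ t := by
    intro x
    refine Pool.Agent.V11326.WS.seqScale (Bad x) hv hτ hvτ (by linarith) hϑ ?_
    obtain ⟨g, a, b, k⟩ := x
    by_cases hcond : (poly g).Monic ∧ (poly g).natDegree = n ∧ (∀ i, a i ≠ 0)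
    · obtain ⟨h1, h2, h3⟩ := hcond
      choose Ra hRa using fun i => exists_height (a i)
      choose Rb hRb using fun i => exists_height (b i)
      choose Rg hRg using fun i : ℕ => exists_height ((poly g).coeff i)
      -- a common bound
      obtain ⟨Ma, hMa⟩ := (Set.finite_range Ra).bddAbove
      obtain ⟨Mb, hMb⟩ := (Set.finite_range Rb).bddAbove
      obtain ⟨Mg, hMg⟩ := (Set.finite_range fun i : Fin (n + 1) => Rg i).bddAbove
      obtain ⟨X₂, hX₂⟩ := exists_nat_ge (max (max Ma Mb) Mg)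
      refine ⟨max (max X₁ X₂) 1, fun X hX => ?_⟩
      have hXX₁ : X₁ ≤ X := ((le_max_left _ _).trans (le_max_left _ _)).trans hX
      have hXX₂ : X₂ ≤ X := ((le_max_right _ _).trans (le_max_left _ _)).trans hX
      have hX1 : 1 ≤ X := (le_max_right _ _).trans hX
      have hX1' : (1 : ℝ) ≤ X := by exact_mod_cast hX1
      have hexp : Real.exp ((Real.log X) ^ (1 : ℝ)) = X := by
        rw [Real.rpow_one, Real.exp_log (by linarith)]
      have hXM : max (max Ma Mb) Mg ≤ X := hX₂.trans (by exact_mod_cast hXX₂)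
      have hMaX : Ma ≤ X := ((le_max_left _ _).trans (le_max_left _ _)).trans hXM
      have hMbX : Mb ≤ X := ((le_max_right _ _).trans (le_max_left _ _)).trans hXM
      have hMgX : Mg ≤ X := (le_max_right _ _).trans hXM
      have key := hfew X hXX₁ F hF (poly g) h1 h2 (fun i σ => by
          rw [hexp]
          rcases Nat.lt_or_ge n i with hi | hi
          · rw [Polynomial.coeff_eq_zero_of_natDegree_lt (by rw [h2]; exact hi)]
            simp
          · exact ((hRg i σ).trans (hMg ⟨⟨i, by omega⟩, rfl⟩)).trans hMgX)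
        1 (by
          rw [Nat.cast_one]
          exact Real.one_le_rpow hX1' hc₀.le)
        (fun _ => a) (fun _ => b) (fun _ => γ k)
        (fun _ i => ⟨h3 i, fun σ => by
          rw [hexp]
          exact ((hRa i σ).trans (hMa ⟨i, rfl⟩)).trans hMaX, fun σ => by
          rw [hexp]
          exact ((hRb i σ).trans (hMb ⟨i, rfl⟩)).trans hMbX⟩)
        (fun _ i w j => hγ k i w j)
      have hpow : (X : ℝ) ^ (1 - c₀) ≤ (X : ℝ) ^ (1 - c) :=
        Real.rpow_le_rpow_of_exponent_le hX1' (by linarith)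
      refine le_trans ?_ (key.trans hpow)
      have hfin : {t : ℤ | |t| ≤ X ∧ ¬ ∀ (L : Type) [Field L] [NumberField L] [Algebra F L] (θ : 𝓞 L),
          Generates (poly g) t θ → ∀ (k' : Fin 1) (T : ℕ), (Real.log X) ^ (1 / c₀) ≤ T →
            (T : ℝ) ≤ (X : ℝ) ^ c₀ →
            ‖tauberSum (fun i => algebraMap (𝓞 F) (𝓞 L) (a i))
                (fun i => algebraMap (𝓞 F) (𝓞 L) (b i) + θ) (baseChange L (γ k)) T -
              expectedSum (picardNumber a b) (γ k) T‖ ≤ (T : ℝ) ^ (1 / 2 + δ)}.Finite := by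
        refine (Set.finite_Icc (-(X : ℤ)) X).subset ?_
        rintro t ⟨ht, -⟩
        exact abs_le.1 ht
      have h4 := Set.ncard_le_ncard_of_injOn (fun t : ℕ => (t : ℤ))
        (s := {t : ℕ | 1 ≤ t ∧ t ≤ X ∧ Bad (g, a, b, k) X t}) (fun t ht => by
          obtain ⟨h5, h6, h7⟩ := ht
          refine ⟨?_, fun h8 => h7.2.2.2 ?_⟩
          · rw [abs_of_nonneg (by positivity)]
            exact_mod_cast h6
          · intro L _ _ _ θ hθ T hT1 hT2
            exact h8 L θ hθ 0 T hT1 hT2) (Nat.cast_injective.injOn) hfin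
      exact_mod_cast h4
    · refine ⟨0, fun X _ => ?_⟩
      have : {t : ℕ | 1 ≤ t ∧ t ≤ X ∧ Bad (g, a, b, k) X t} = ∅ := by
        rw [Set.eq_empty_iff_forall_notMem]
        rintro t ⟨-, -, h1, h2, h3, -⟩
        exact hcond ⟨h1, h2, h3⟩
      rw [this, Set.ncard_empty, Nat.cast_zero]
      positivity
  choose E hE1 hE2 using hall
  refine ⟨⋃ x, E x, ?_, fun α hα hαE f hf hfn a b ha k => ?_⟩
  · rw [dimH_iUnion]
    exact iSup_le hE1
  · obtain ⟨A, hA, n₁, hn₁⟩ := hE2 (fun i : Fin (n + 1) => f.coeff i, a, b, k) α hα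
      (fun h => hαE (Set.mem_iUnion.2 ⟨_, h⟩))
    have htv : Tendsto v atTop atTop :=
      Pool.Agent.Y854.GM.tendsto_of_expLe (fun k => lt_of_lt_of_le one_pos (hv k)) hτ hvτ
    have e1 := Pool.Agent.V11326.WE.eventually_pow hv htv hϑ hα (ρ' := (3 : ℝ) / 2) (ρ := 2)
      (by norm_num) (by norm_num)
    have e2 : ∀ᶠ ν : ℕ in atTop, ((A : ℝ) + 2) ≤ (v ν) ^ ((1 : ℝ) / 2) :=
      ((tendsto_rpow_atTop (by norm_num)).comp htv).eventually_ge_atTop _
    have e3 : ∀ᶠ ν : ℕ in atTop, (2 * Real.exp 2 / α) ≤ v ν := htv.eventually_ge_atTop _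
    have e4 : ∀ᶠ ν : ℕ in atTop, 2 / α ≤ (v ν) ^ (1 - ϑ) :=
      ((tendsto_rpow_atTop (by linarith)).comp htv).eventually_ge_atTop _
    obtain ⟨n₂, hn₂⟩ := eventually_atTop.1 ((e1.and e2).and (e3.and e4))
    refine ⟨max n₁ n₂, fun ν hν t ht hw => ?_⟩
    obtain ⟨h1, h2⟩ := hn₁ ν ((le_max_left _ _).trans hν) t ht hw
    obtain ⟨⟨h3, h4⟩, h3', h4'⟩ := hn₂ ν ((le_max_right _ _).trans hν)
    obtain ⟨h5, h6⟩ := h3 (t : ℝ) hw
    have hv0 : 0 < v ν := lt_of_lt_of_le one_pos (hv ν)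
    have hA0 : (0 : ℝ) ≤ A := Nat.cast_nonneg A
    have ht1 : (1 : ℝ) ≤ t := by exact_mod_cast ht
    set X : ℕ := ⌈((A : ℝ) + 1) * v ν⌉₊ with hXdef
    have hX : (X : ℝ) ≤ ((A : ℝ) + 2) * v ν := by
      have := Nat.ceil_lt_add_one (show 0 ≤ ((A : ℝ) + 1) * v ν by positivity)
      have := hv ν
      nlinarith
    have htX : (t : ℝ) ≤ X := by exact_mod_cast h1
    have hX1 : (1 : ℝ) ≤ X := ht1.trans htX
    -- `X ≤ t ^ 2`
    have hXt : (X : ℝ) ≤ (t : ℝ) ^ (2 : ℝ) := by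
      calc (X : ℝ) ≤ ((A : ℝ) + 2) * v ν := hX
        _ ≤ (v ν) ^ ((1 : ℝ) / 2) * v ν := mul_le_mul_of_nonneg_right h4 hv0.le
        _ = (v ν) ^ ((3 : ℝ) / 2) := by
            rw [← Real.rpow_add_one hv0.ne']
            norm_num
        _ ≤ _ := h6
    have hlogX : Real.log X ≤ 2 * Real.log t := by
      have := Real.log_le_log (by linarith) hXt
      rwa [Real.log_rpow (by linarith)] at this
    -- `log t ≥ 2`
    have hlt : 2 ≤ Real.log t := by
      rw [Real.le_log_iff_exp_le (by linarith)]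
      have h7 := (abs_le.1 hw).1
      have h8 : (v ν) ^ ϑ ≤ α / 2 * v ν := by
        have h9 : (v ν) ^ ϑ * (2 / α) ≤ v ν := by
          calc (v ν) ^ ϑ * (2 / α) ≤ (v ν) ^ ϑ * (v ν) ^ (1 - ϑ) :=
                mul_le_mul_of_nonneg_left h4' (Real.rpow_nonneg hv0.le _)
            _ = v ν := by
                rw [← Real.rpow_add hv0]
                simp
        calc (v ν) ^ ϑ = α / 2 * ((v ν) ^ ϑ * (2 / α)) := by field_simp
          _ ≤ α / 2 * v ν := mul_le_mul_of_nonneg_left h9 (by positivity)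
      have h9 : Real.exp 2 ≤ α / 2 * v ν := by
        rw [div_le_iff₀ hα] at h3'
        linarith
      have h10 : α / 2 * v ν + α / 2 * v ν = α * v ν := by ring
      linarith
    have hpf : poly (fun i : Fin (n + 1) => f.coeff i) = f := poly_coeff f hfn
    have h7 : Holds δ f a b (γ k) t ((Real.log X) ^ (1 / c₀)) ((X : ℝ) ^ c₀) := by
      by_contra hcon
      refine h2 ⟨?_, ?_, ha, ?_⟩
      · simp only
        rw [hpf]
        exact hf
      · simp only
        rw [hpf]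
        exact hfn
      · simp only
        rw [hpf]
        exact hcon
    intro L _ _ _ θ hθ T hT1 hT2
    refine h7 L θ hθ T (le_trans ?_ hT1) (hT2.trans ?_)
    · calc (Real.log X) ^ (1 / c₀) ≤ (2 * Real.log t) ^ (1 / c₀) :=
            Real.rpow_le_rpow (Real.log_nonneg hX1) hlogX (by positivity)
        _ ≤ ((Real.log t) ^ (2 : ℝ)) ^ (1 / c₀) := by
            refine Real.rpow_le_rpow (by linarith) ?_ (by positivity)
            rw [Real.rpow_two]
            nlinarith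
        _ = (Real.log t) ^ (2 / c₀) := by
            rw [← Real.rpow_mul (by linarith)]
            congr 1
            ring
        _ ≤ (Real.log t) ^ (1 / c) := by
            refine Real.rpow_le_rpow_of_exponent_le (by linarith) ?_
            rw [div_le_div_iff₀ hc₀ hc0]
            linarith
    · calc (t : ℝ) ^ c ≤ (X : ℝ) ^ c := Real.rpow_le_rpow (by linarith) htX hc0.le
        _ ≤ (X : ℝ) ^ c₀ := Real.rpow_le_rpow_of_exponent_le hX1 (by linarith)

end Pool.Agent.Results.MP_4589ac_nt.WindowsOfNumberFields
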